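import Pool.Agent.H560Bh.TIndep

namespace Pool.Agent.Results.MP_d10a06_co.FixedSize

open Pool.Agent.H560Bh

/-- For every fixed size `m ≥ 1`, with `Δ` the critical determinant of the `m`-dimensional
cross-polytope: if `ℤ_n` contains a `t`-independent set of size `m` then `n ≥ Δ (t + 1) ^ m`, and for
every `ρ > Δ` and every large `n`, `ℤ_n` contains such a set for all `t` with `ρ t ^ m < n`. -/
theorem result : ∀ m : ℕ, 1 ≤ m →
    0 < critN (l1 (d := m)) ∧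
    (∀ n t : ℕ, 0 < n → m ≤ tau n t → critN (l1 (d := m)) * ((t : ℝ) + 1) ^ m ≤ n) ∧
    (∀ ρ : ℝ, critN (l1 (d := m)) < ρ →
      ∃ n₀ : ℕ, ∀ n ≥ n₀, ∀ t : ℕ, ρ * (t : ℝ) ^ m < n → m ≤ tau n t) := by
  intro m hm
  obtain ⟨d, rfl⟩ : ∃ d, m = d + 1 := ⟨m - 1, by omega⟩
  have h0 := crit_l1_pos d
  exact ⟨h0, fun n t hn ht => tindep_lower d n t hn ht,
    fun ρ hρ => tindep_upper d ρ hρ (h0.trans hρ)⟩

end Pool.Agent.Results.MP_d10a06_co.FixedSize
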